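import Mathlib

/-!
# Project QN (helper80): q-numerical ranges are 1-spectral sets for `|q| ≤ 1/√2` (hard row MP_16d611_an). Five packages.

`E n = EuclideanSpace ℂ (Fin n)`, `inner ℂ x y` is conjugate linear in `x`. All packages are Mathlib only (VN may use `Pool.Agent.Helper654.PtakN`).
-/

set_option autoImplicit false

namespace Pool.Agent.P8H80.QN

open Polynomial

abbrev E (n : ℕ) := EuclideanSpace ℂ (Fin n)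

/-- **MAX** (25 lines). The continuous function `‖T z‖^2 - ‖⟨z, T z⟩‖^2` has a maximum at a point `x` of the compact unit sphere (`isCompact_sphere`,
non-empty as `1 ≤ n`); for general `z ≠ 0` apply it to `z / ‖z‖` (homogeneity of degree four), `z = 0` is trivial. -/
def S_MAX : Prop := ∀ (n : ℕ) (T : E n →L[ℂ] E n), 1 ≤ n → ∃ x : E n, ‖x‖ = 1 ∧
  ∀ z : E n, ‖T z‖ ^ 2 * ‖z‖ ^ 2 - ‖inner ℂ z (T z)‖ ^ 2 ≤ (‖T x‖ ^ 2 - ‖inner ℂ x (T x)‖ ^ 2) * ‖z‖ ^ 4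

/-- **ORT** (50 lines), first order condition. Put `M = ‖B x‖^2`, and let `w ⟂ x`, `z = x + ε w` with `ε` real. Then `‖z‖^2 = 1 + ε^2 ‖w‖^2`,
`‖B z‖^2 = M + 2 ε Re ⟨B x, B w⟩ + ε^2 ‖B w‖^2`, `⟨z, B z⟩ = ε (⟨w, B x⟩ + ⟨x, B w⟩) + ε^2 ⟨w, B w⟩` (as `⟨x, B x⟩ = 0`). The hypothesis gives
`(M + 2 ε Re ⟨B x, B w⟩ + ε^2 ‖B w‖^2) (1 + ε^2 ‖w‖^2) ≤ M (1 + ε^2 ‖w‖^2)^2 + ε^2 (c₁ + |ε| c₂)^2`, so that for `0 < ε ≤ 1`: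
`2 Re ⟨B x, B w⟩ ≤ ε K` with `K` independent of `ε`, hence `Re ⟨B x, B w⟩ ≤ 0`. Apply this to all `ζ w` with `ζ` complex (in particular
`ζ = conj ⟨B x, B w⟩`), to get `⟨B x, B w⟩ = 0`. -/
def S_ORT : Prop := ∀ (n : ℕ) (B : E n →L[ℂ] E n) (x : E n), ‖x‖ = 1 → inner ℂ x (B x) = 0 →
  (∀ z : E n, ‖B z‖ ^ 2 * ‖z‖ ^ 2 - ‖inner ℂ z (B z)‖ ^ 2 ≤ ‖B x‖ ^ 2 * ‖z‖ ^ 4) →
  ∀ w : E n, inner ℂ x w = 0 → inner ℂ (B x) (B w) = 0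

/-- **SND** (70 lines). Put `M = ‖B x‖^2`, `w ⟂ x`, `u = ⟨w, B x⟩`, `v = ⟨x, B w⟩`, `c = ⟨w, B w⟩`. For `z = a x + ζ w`, `a` real, `|ζ| = 1`:
`‖z‖^2 = a^2 + ‖w‖^2`, `‖B z‖^2 = a^2 M + ‖B w‖^2` (as `⟨B x, B w⟩ = 0`), `⟨z, B z⟩ = a (conj ζ u + ζ v) + c`.
If `c = 0`, take `a = 0`: `‖B w‖^2 ‖w‖^2 ≤ M ‖w‖^4`. If `c ≠ 0` choose `ζ` with `(conj ζ u + ζ v) / c = r` real (with `u' = u/c`, `v' = v/c`: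
`Im (conj ζ u' + ζ v') = Im (ζ (v' - conj u'))`, so `ζ = 1` if `v' = conj u'`, otherwise `ζ = conj (v' - conj u') / |v' - conj u'|`).
If `r ≠ 0` take `a = -1/r`: then `⟨z, B z⟩ = 0`, so `‖B z‖^2 ≤ M ‖z‖^2`, that is `a^2 M + ‖B w‖^2 ≤ M (a^2 + ‖w‖^2)`.
If `r = 0`: `(a^2 M + ‖B w‖^2) (a^2 + ‖w‖^2) - |c|^2 ≤ M (a^2 + ‖w‖^2)^2`, so `(‖B w‖^2 - M ‖w‖^2) (a^2 + ‖w‖^2) ≤ |c|^2` for all `a`, so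
`‖B w‖^2 ≤ M ‖w‖^2`. -/
def S_SND : Prop := ∀ (n : ℕ) (B : E n →L[ℂ] E n) (x : E n), ‖x‖ = 1 → inner ℂ x (B x) = 0 →
  (∀ z : E n, ‖B z‖ ^ 2 * ‖z‖ ^ 2 - ‖inner ℂ z (B z)‖ ^ 2 ≤ ‖B x‖ ^ 2 * ‖z‖ ^ 4) →
  (∀ w : E n, inner ℂ x w = 0 → inner ℂ (B x) (B w) = 0) →
  ∀ w : E n, inner ℂ x w = 0 → ‖B w‖ ≤ ‖B x‖ * ‖w‖

/-- **CIR** (50 lines). Let `l = ⟨x, T x⟩`, `v = T x - l x ⟂ x`, `s = √(1 - |q|^2)`. If `v ≠ 0` put `z = ζ • (v / ‖v‖)` with `|ζ| = 1` and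
`y = conj q • x + s • z`: `‖y‖ = 1`, `⟨y, x⟩ = q`, `⟨y, T x⟩ = q l + s conj ζ ‖v‖`; choose `ζ` with `s conj ζ ‖v‖ = q (w - l)` (both sides have the
same absolute value). If `v = 0` take any unit `z ⟂ x` (exists as `n ≥ 2`), then `w = l` and `⟨y, T x⟩ = q l`. -/
def S_CIR : Prop := ∀ (n : ℕ) (T : E n →L[ℂ] E n) (q : ℂ) (x : E n) (w : ℂ), 2 ≤ n → q ≠ 0 → ‖q‖ < 1 → ‖x‖ = 1 →
  ‖w - inner ℂ x (T x)‖ = Real.sqrt (1 - ‖q‖ ^ 2) / ‖q‖ * ‖T x - (inner ℂ x (T x)) • x‖ →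
  ∃ x' y : E n, ‖x'‖ = 1 ∧ ‖y‖ = 1 ∧ inner ℂ y x' = q ∧ inner ℂ y (T x') = q * w

/-- **VN** (60 lines), von Neumann's inequality. `Pool.Agent.Helper654.Ptak.vN_gen` (module `Pool.Agent.Helper654.PtakN`) is this for `l = 0`,
`‖T‖ ≤ 1` and `T` annihilated by a polynomial `∏ (X - z_j)` with all `‖z_j‖ ≤ r < 1`. For `S = R⁻¹ (T - l)` and `0 < t < 1` apply it to `t S`: the
characteristic polynomial (or the minimal polynomial) of `t S` is a product of `X - z_j` with eigenvalues `z_j`, `‖z_j‖ ≤ ‖t S‖ ≤ t`; `F` is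
`p` composed with `R X + l`. Let `t → 1` (both sides are continuous: `‖F(tS)‖ ≤ max_{|ζ| = 1} ‖F(ζ)‖`). -/
def S_VN : Prop := ∀ (n : ℕ) (T : E n →L[ℂ] E n) (l : ℂ) (R : ℝ), 1 ≤ n → 0 < R → (∀ z : E n, ‖T z - l • z‖ ≤ R * ‖z‖) →
  ∀ (p : ℂ[X]) (K : ℝ), (∀ w : ℂ, ‖w - l‖ = R → ‖p.eval w‖ ≤ K) → ‖aeval T p‖ ≤ K

end Pool.Agent.P8H80.QN
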